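import Mathlib
import Pool.Agent.Q80.PB.Main

set_option autoImplicit false

open Polynomial Module
open Pool.Agent.W77.IM Pool.Agent.W432.PC Pool.Agent.Q80.PB

namespace Pool.Agent.Q80.TC

universe u v w

variable {R : Type u} [CommRing R] {F : Type v} [Field F] [Algebra R F]

/-- The additive group of the sums of the products `c * v`, `c ∈ 𝔪`, `v ∈ B`. -/
def MB (B : Subring F) (𝔪 : Ideal R) : AddSubgroup F :=
  AddSubgroup.closure {z | ∃ c ∈ 𝔪, ∃ v ∈ B, z = algebraMap R F c * v}

lemma MB_of {B : Subring F} {𝔪 : Ideal R} {c : R} (hc : c ∈ 𝔪) {v : F} (hv : v ∈ B) :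
    algebraMap R F c * v ∈ MB B 𝔪 := AddSubgroup.subset_closure ⟨c, hc, v, hv, rfl⟩

lemma MB_mul {B : Subring F} {𝔪 : Ideal R} {z w : F} (hz : z ∈ MB B 𝔪) (hw : w ∈ B) :
    w * z ∈ MB B 𝔪 := by
  induction hz using AddSubgroup.closure_induction with
  | mem z hz =>
    obtain ⟨c, hc, v, hv, rfl⟩ := hz
    have : w * (algebraMap R F c * v) = algebraMap R F c * (w * v) := by ring
    rw [this]
    exact MB_of hc (mul_mem hw hv)
  | zero => rw [mul_zero]; exact zero_mem _
  | add a b _ _ ha hb => rw [mul_add]; exact add_mem ha hb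
  | neg a _ ha => rw [mul_neg]; exact neg_mem ha

variable [IsDomain R] [CharZero R]

/-- **The criterion.** For a finite set `S` of functions there is a ring `B` of functions on an open
part of the curve, spread out, such that the `p`-curvature of the system vanishes at `𝔪` if that of
the pullback is zero modulo `𝔪 B` on generators. -/
theorem core (hR : Function.Injective (algebraMap R F)) (δ : Derivation R F F)
    (x : F) (hx : δ x = 1) (halg : ∀ z : F, IsAlgebraic (Algebra.adjoin R ({x} : Set F)) z)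
    {n r : ℕ} (α : Fin n → R) (A : Fin n → Matrix (Fin r) (Fin r) R) (S₀ : Finset F)
    {q : ℕ} (u : Fin q → Fin r → F) (hspan : Submodule.span F (Set.range u) = ⊤) :
    ∃ g : R, g ≠ 0 ∧ ∃ B : Subring F, (∀ z ∈ S₀, z ∈ B) ∧ (∀ a : R, algebraMap R F a ∈ B) ∧
      (∀ a ∈ B, δ a ∈ B) ∧ (∀ p : ℕ, p.Prime → ∀ a ∈ B, ∃ v ∈ B, δ^[p] a = p * v) ∧
      ∀ p : ℕ, p.Prime → ∀ (𝔪 : Ideal R) [𝔪.IsMaximal], (p : R) ∈ 𝔪 → g ∉ 𝔪 →
        (∀ k l, (pull δ x α A)^[p] (u k) l ∈ MB B 𝔪) → PCurvZeroAt α A 𝔪 := by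
  classical
  have htr : ∀ q : R[X], q ≠ 0 → (aeval x q : F) ≠ 0 := fun q hq =>
    aeval_ne_zero hR (δ.restrictScalars ℤ) (fun a => δ.map_algebraMap a) x hx hq
  have hc : ∀ c : Fin r, ∃ f : Fin q → F, ∑ k, f k • u k = (Pi.single c 1 : Fin r → F) := by
    intro c
    have : (Pi.single c 1 : Fin r → F) ∈ Submodule.span F (Set.range u) := by
      rw [hspan]; exact Submodule.mem_top
    exact (Submodule.mem_span_range_iff_exists_fun F).mp this
  choose fc hfc using hc
  let S : Finset F := S₀ ∪ ((Finset.univ.image fun z : Fin r × Fin q => fc z.1 z.2) ∪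
    (Finset.univ.image fun z : Fin q × Fin r => u z.1 z.2))
  have hTne : T α ≠ 0 := (monic_prod_of_monic _ _ fun i _ => monic_X_sub_C _ : (T α).Monic).ne_zero
  obtain ⟨U, y, P, hU, hTU, D, hS⟩ := exists_isPrim hR δ x hx halg (T α) hTne S
  set Ar : Subring F := (CoordRing x U R).toSubring with hAr
  have hUx : (aeval x U : F) ≠ 0 := htr U hU
  have hTx : (aeval x (T α) : F) ≠ 0 := htr _ hTne
  have hTαU : T α ∣ U := hTU
  have hfcB : ∀ c k, fc c k ∈ BB Ar y := fun c k =>
    hS _ (Finset.mem_union_right _ (Finset.mem_union_left _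
      (Finset.mem_image.mpr ⟨(c, k), Finset.mem_univ _, rfl⟩)))
  have hsB : ∀ k l, u k l ∈ BB Ar y := fun k l =>
    hS _ (Finset.mem_union_right _ (Finset.mem_union_right _
      (Finset.mem_image.mpr ⟨(k, l), Finset.mem_univ _, rfl⟩)))
  have hAδ : ∀ a ∈ Ar, δ a ∈ Ar := fun a ha => der_mem δ hx U ha
  have hRA : ∀ a : R, algebraMap R F a ∈ Ar := fun a => Subalgebra.algebraMap_mem _ a
  have hpolA : ∀ f : R[X], (aeval x f : F) ∈ Ar := fun f => aeval_mem x U f
  have hinvα : ∀ j, (x - algebraMap R F (α j))⁻¹ ∈ Ar := by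
    intro j
    have h1 := aeval_T_inv x α hTx j
    have h2 : (x - algebraMap R F (α j))⁻¹ = aeval x (Tc α j) * (aeval x (T α))⁻¹ := by
      rw [← h1]; field_simp
    rw [h2]
    exact mul_mem (hpolA _) (coord_mono x hUx hTαU (inv_mem_coord x _))
  have hAp : ∀ p : ℕ, p.Prime → ∀ a ∈ Ar, ∃ v ∈ Ar, (δ.restrictScalars ℤ)^[p] a = p * v := by
    intro p hp a ha
    obtain ⟨v, hv⟩ := dA_iterate δ hx hUx hp ⟨a, ha⟩
    refine ⟨v, v.2, ?_⟩
    have h1 : ∀ (m : ℕ) (c : CoordRing x U R), (((dA δ hx U)^[m] c : CoordRing x U R) : F) =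
        δ^[m] (c : F) := by
      intro m c
      induction m with
      | zero => rfl
      | succ m ih => rw [Function.iterate_succ_apply', Function.iterate_succ_apply', ← ih]; rfl
    have h2 := congrArg (fun c : CoordRing x U R => (c : F)) hv
    simp only [h1] at h2
    exact h2
  have hBδ : ∀ a ∈ BB Ar y, δ a ∈ BB Ar y := fun a ha =>
    D.der_mem (δ.restrictScalars ℤ) hAδ ha
  have hBp : ∀ p : ℕ, p.Prime → ∀ a ∈ BB Ar y, ∃ v ∈ BB Ar y, δ^[p] a = p * v :=
    fun p hp a ha => D.iterate (δ.restrictScalars ℤ) hAδ hp (hAp p hp) ha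
  refine ⟨U.leadingCoeff, leadingCoeff_ne_zero.mpr hU, BB Ar y,
    fun z hz => hS _ (Finset.mem_union_left _ hz), fun a => le_BB (hRA a), hBδ, hBp, ?_⟩
  intro p hp 𝔪 h𝔪 hpm hg hgen'
  set I : Ideal Ar := II x U hUx 𝔪 with hI
  have hpol : ∀ f : R[X], (∀ m, f.coeff m ∈ 𝔪) →
      Val ((fun a : Ar => (a : F)) '' (I : Set Ar)) y (aeval x f) := by
    intro f hf
    have : (⟨aeval x f, hpolA f⟩ : Ar) ∈ I := ⟨0, f, hf, by rw [pow_zero, one_mul]⟩
    exact Val.of_mem this
  have hcst : ∀ c ∈ 𝔪, Val ((fun a : Ar => (a : F)) '' (I : Set Ar)) y (algebraMap R F c) := by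
    intro c hc
    have := hpol (C c) (fun m => by
      rw [coeff_C]
      split_ifs
      · exact hc
      · exact 𝔪.zero_mem)
    rwa [aeval_C] at this
  have hpI : Val ((fun a : Ar => (a : F)) '' (I : Set Ar)) y (p : F) := by
    have := hcst _ hpm
    rwa [map_natCast] at this
  have hMB : ∀ z ∈ MB (BB Ar y) 𝔪, Val ((fun a : Ar => (a : F)) '' (I : Set Ar)) y z := by
    intro z hz
    induction hz using AddSubgroup.closure_induction with
    | mem z hz =>
      obtain ⟨c, hc, v, hv, rfl⟩ := hz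
      rw [mul_comm]
      exact Val.mul hv (hcst c hc)
    | zero => exact Val.zero
    | add a b _ _ ha hb => exact Val.add ha hb
    | neg a _ ha =>
      have h1 : -a = (-1 : F) * a := by ring
      rw [h1]
      exact Val.mul (neg_mem (one_mem _)) ha
  -- the iterates of the generators
  have hgen : ∀ k l, Val ((fun a : Ar => (a : F)) '' (I : Set Ar)) y
      ((pull δ x α A)^[p] (u k) l) := fun k l => hMB _ (hgen' k l)
  have hbasis : ∀ c l, Val ((fun a : Ar => (a : F)) '' (I : Set Ar)) y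
      ((pull δ x α A)^[p] (Pi.single c 1) l) := by
    intro c l
    rw [← hfc c]
    have h1 : ∀ t : Finset (Fin q), Val ((fun a : Ar => (a : F)) '' (I : Set Ar)) y
        ((pullHom δ x α A)^[p] (∑ k ∈ t, fc c k • u k) l) := by
      intro t
      induction t using Finset.induction_on with
      | empty => rw [Finset.sum_empty, iterate_map_zero]; exact Val.zero
      | insert a t ha ih =>
        rw [Finset.sum_insert ha, iterate_map_add, Pi.add_apply]
        refine Val.add ?_ ih
        obtain ⟨v, hv, h2⟩ := pull_leibniz δ x α A hBδ (fun j => le_BB (hinvα j))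
          (fun a => le_BB (hRA a)) hp (hfcB c a) (hsB a)
        have h3 : (pullHom δ x α A)^[p] (fc c a • u a) =
          (pull δ x α A)^[p] (fc c a • u a) := rfl
        rw [h3, h2]
        simp only [Pi.add_apply, Pi.smul_apply, smul_eq_mul]
        obtain ⟨w, hw, h4⟩ := hBp p hp _ (hfcB c a)
        refine Val.add (Val.add ?_ ?_) ?_
        · rw [h4, mul_comm (p : F) w, mul_assoc, mul_comm (p : F), ← mul_assoc]
          exact Val.mul (mul_mem hw (hsB a l)) hpI
        · exact Val.mul (hfcB c a) (hgen a l)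
        · rw [mul_comm]
          exact Val.mul (hv l) hpI
    exact h1 Finset.univ
  -- the polynomial matrix vanishes modulo `𝔪`
  have hQ : ∀ l c, (Q α A p l c).map (Ideal.Quotient.mk 𝔪) = 0 := by
    intro l c
    have h1 : Val ((fun a : Ar => (a : F)) '' (I : Set Ar)) y (aeval x (Q α A p l c)) := by
      rw [← pull_iterate δ x α A hx hTx c p l]
      exact Val.mul (le_BB (pow_mem (hpolA _) p)) (hbasis c l)
    have h2 := D.comap I (hpolA (Q α A p l c)) h1
    obtain ⟨m, f, hf, h3⟩ := h2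
    have h4 : U ^ m * Q α A p l c = f := by
      by_contra hne
      have h5 := htr _ (sub_ne_zero.mpr hne)
      apply h5
      rw [map_sub, map_mul, map_pow, h3, sub_self]
    have h5 := congrArg (Polynomial.map (Ideal.Quotient.mk 𝔪)) h4
    have h6 : f.map (Ideal.Quotient.mk 𝔪) = 0 := by
      ext j
      rw [Polynomial.coeff_map, coeff_zero, Ideal.Quotient.eq_zero_iff_mem]
      exact hf j
    rw [h6, Polynomial.map_mul, Polynomial.map_pow] at h5
    have hdom : IsDomain (R ⧸ 𝔪) := Ideal.Quotient.isDomain 𝔪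
    refine (mul_eq_zero.mp h5).resolve_left (pow_ne_zero _ ?_)
    intro h7
    have h8 := congrArg (fun q => q.coeff U.natDegree) h7
    simp only [Polynomial.coeff_map, coeff_zero, Ideal.Quotient.eq_zero_iff_mem] at h8
    exact hg h8
  unfold PCurvZeroAt
  letI : Field (R ⧸ 𝔪) := Ideal.Quotient.field 𝔪
  have hpp : Fact p.Prime := ⟨hp⟩
  have hchar : CharP (R ⧸ 𝔪) p := by
    have h1 : ((p : ℕ) : R ⧸ 𝔪) = 0 := by
      have : ((p : ℕ) : R ⧸ 𝔪) = Ideal.Quotient.mk 𝔪 (p : R) := by simp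
      rw [this, Ideal.Quotient.eq_zero_iff_mem]
      exact hpm
    exact (CharP.charP_iff_prime_eq_zero hp).mpr h1
  refine pCurvZero_of_Q (p := p) _ _ ?_
  rw [← Q_map (Ideal.Quotient.mk 𝔪) α A p]
  ext1 l c
  rw [Matrix.map_apply, Matrix.zero_apply]
  exact hQ l c

end Pool.Agent.Q80.TC
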