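import Mathlib

set_option autoImplicit false

open Finset

namespace Pool.Agent.Q80.TC

universe v w

variable {F : Type v} [Field F]

/-- The coefficients of `(g ∇) ^ n = ∑ i, hc n i ∇ ^ i`, for a connection `∇` over the derivation
`D`, `δ = g D`. -/
def hc (δ : F → F) (g : F) : ℕ → ℕ → F
  | 0, 0 => 1
  | 0, _ + 1 => 0
  | n + 1, 0 => δ (hc δ g n 0)
  | n + 1, i + 1 => δ (hc δ g n (i + 1)) + g * hc δ g n i

section basic

variable (δ : Derivation ℤ F F) (g : F)

lemma hc_gt (n i : ℕ) (h : n < i) : hc δ g n i = 0 := by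
  induction n generalizing i with
  | zero =>
    cases i with
    | zero => omega
    | succ i => rfl
  | succ n ih =>
    cases i with
    | zero => omega
    | succ i =>
      show δ (hc δ g n (i + 1)) + g * hc δ g n i = 0
      rw [ih _ (by omega), ih _ (by omega), map_zero, mul_zero, add_zero]

lemma hc_succ_zero (n : ℕ) : hc δ g (n + 1) 0 = 0 := by
  induction n with
  | zero => show δ 1 = 0; exact δ.map_one_eq_zero
  | succ n ih => show δ (hc δ g (n + 1) 0) = 0; rw [ih, map_zero]

lemma hc_self (n : ℕ) : hc δ g n n = g ^ n := by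
  induction n with
  | zero => rw [pow_zero]; rfl
  | succ n ih =>
    show δ (hc δ g n (n + 1)) + g * hc δ g n n = g ^ (n + 1)
    rw [hc_gt δ g n (n + 1) (by omega), map_zero, zero_add, ih]
    ring

lemma hc_mem (B : Subring F) (hB : ∀ a ∈ B, δ a ∈ B) (hg : g ∈ B) (n i : ℕ) :
    hc δ g n i ∈ B := by
  induction n generalizing i with
  | zero =>
    cases i with
    | zero => exact B.one_mem
    | succ i => exact B.zero_mem
  | succ n ih =>
    cases i with
    | zero => exact hB _ (ih _)
    | succ i => exact add_mem (hB _ (ih _)) (mul_mem hg (ih _))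

variable {V : Type w} [AddCommGroup V] [Module F V]

/-- Expansion of the iterates of `g ∇`. -/
theorem hc_expand (D : Derivation ℤ F F) (hD : ∀ f, δ f = g * D f) (Nt Nx : V → V)
    (hadd : ∀ a b, Nt (a + b) = Nt a + Nt b) (hz : Nt 0 = 0)
    (hl : ∀ (f : F) (a : V), Nt (f • a) = D f • a + f • Nt a)
    (hx : ∀ a, Nx a = g • Nt a) (n : ℕ) (a : V) :
    Nx^[n] a = ∑ i ∈ range (n + 1), hc δ g n i • Nt^[i] a := by
  induction n with
  | zero => simp [hc]
  | succ n ih =>
    rw [Function.iterate_succ_apply', ih, hx]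
    have hsum : ∀ (s : Finset ℕ) (f : ℕ → V), Nt (∑ i ∈ s, f i) = ∑ i ∈ s, Nt (f i) := by
      intro s f
      classical
      induction s using Finset.induction_on with
      | empty => rw [sum_empty, sum_empty, hz]
      | insert a s ha ih => rw [sum_insert ha, sum_insert ha, hadd, ih]
    rw [hsum, smul_sum]
    have h1 : ∀ i, g • Nt (hc δ g n i • Nt^[i] a) =
        δ (hc δ g n i) • Nt^[i] a + (g * hc δ g n i) • Nt^[i + 1] a := by
      intro i
      rw [hl, smul_add, smul_smul, smul_smul, hD, Function.iterate_succ_apply']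
    rw [sum_congr rfl fun i _ => h1 i, sum_add_distrib]
    rw [sum_range_succ' (fun i => hc δ g (n + 1) i • Nt^[i] a) (n + 1)]
    have h2 : ∀ i, hc δ g (n + 1) (i + 1) • Nt^[i + 1] a =
        δ (hc δ g n (i + 1)) • Nt^[i + 1] a + (g * hc δ g n i) • Nt^[i + 1] a := by
      intro i
      rw [← add_smul]
      rfl
    rw [sum_congr rfl fun i _ => h2 i, sum_add_distrib]
    have h3 : ∑ i ∈ range (n + 1), δ (hc δ g n i) • Nt^[i] a =
        ∑ i ∈ range (n + 1), δ (hc δ g n (i + 1)) • Nt^[i + 1] a + δ (hc δ g n 0) • a := by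
      rw [sum_range_succ' (fun i => δ (hc δ g n i) • Nt^[i] a) n,
        sum_range_succ (fun i => δ (hc δ g n (i + 1)) • Nt^[i + 1] a) n,
        hc_gt δ g n (n + 1) (by omega), map_zero, zero_smul, add_zero]
      rfl
    rw [h3]
    have h4 : hc δ g (n + 1) 0 • Nt^[0] a = δ (hc δ g n 0) • a := rfl
    rw [h4]
    abel

end basic

/-- **Hochschild's identity modulo `p`.** -/
theorem hc_p (δ D : Derivation ℤ F F) (g t : F) (hD : ∀ f, δ f = g * D f) (ht : D t = 1)
    (B : Subring F) (hB : ∀ a ∈ B, δ a ∈ B) (hg : g ∈ B) (htB : t ∈ B) {p : ℕ} (hp : p.Prime)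
    (hδp : ∀ a ∈ B, ∃ v ∈ B, δ^[p] a = p * v) (i : ℕ) (hi : i < p) :
    ∃ v ∈ B, hc δ g p i = p * v := by
  induction i using Nat.strong_induction_on with
  | _ i ih =>
    rcases Nat.eq_zero_or_pos i with rfl | hi0
    · obtain ⟨m, rfl⟩ : ∃ m, p = m + 1 := ⟨p - 1, by have := hp.pos; omega⟩
      exact ⟨0, B.zero_mem, by rw [hc_succ_zero, mul_zero]⟩
    have hDt : ∀ (m j : ℕ), D^[j] (t ^ m) = (m.descFactorial j : F) * t ^ (m - j) := by
      intro m j
      induction j with
      | zero => simp
      | succ j ihj =>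
        rw [Function.iterate_succ_apply', ihj, Derivation.leibniz, Derivation.leibniz_pow, ht,
          Nat.descFactorial_succ]
        have h0 : D ((m.descFactorial j : ℕ) : F) = 0 := Derivation.map_natCast D _
        rw [h0]
        simp only [smul_eq_mul, nsmul_eq_mul, mul_one, mul_zero, add_zero]
        have h1 : m - j - 1 = m - (j + 1) := by omega
        rw [h1]
        push_cast
        ring
    have hexp := hc_expand δ g D hD (fun a => D a) (fun a => δ a) (fun a b => map_add D a b)
      (map_zero D) (fun f a => by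
        show D (f * a) = D f * a + f * D a
        rw [Derivation.leibniz]
        simp only [smul_eq_mul]
        ring) (fun a => hD a) p (t ^ i)
    obtain ⟨w, hw, h2⟩ := hδp (t ^ i) (pow_mem htB i)
    have h3 : δ^[p] (t ^ i) = ∑ j ∈ range (p + 1),
        hc δ g p j * ((i.descFactorial j : F) * t ^ (i - j)) := by
      have h4 : (fun a => δ a)^[p] (t ^ i) = δ^[p] (t ^ i) := rfl
      rw [← h4, hexp]
      refine sum_congr rfl fun j _ => ?_
      have h5 : (fun a => D a)^[j] (t ^ i) = D^[j] (t ^ i) := rfl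
      rw [h5, hDt, smul_eq_mul]
    have h4 : ∑ j ∈ range (p + 1), hc δ g p j * ((i.descFactorial j : F) * t ^ (i - j)) =
        ∑ j ∈ range (i + 1), hc δ g p j * ((i.descFactorial j : F) * t ^ (i - j)) := by
      symm
      refine sum_subset (range_mono (by omega)) fun j _ hj => ?_
      rw [mem_range, not_lt] at hj
      rw [Nat.descFactorial_eq_zero_iff_lt.mpr (by omega)]
      simp
    rw [h4, sum_range_succ, Nat.descFactorial_self, Nat.sub_self, pow_zero, mul_one] at h3
    have h5 : ∃ v ∈ B, ∑ j ∈ range i, hc δ g p j * ((i.descFactorial j : F) * t ^ (i - j)) =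
        p * v := by
      have h6 : ∀ j ∈ range i, ∃ v ∈ B, hc δ g p j = p * v := fun j hj =>
        ih j (mem_range.mp hj) (by rw [mem_range] at hj; omega)
      choose! v hv hv2 using h6
      refine ⟨∑ j ∈ range i, v j * ((i.descFactorial j : F) * t ^ (i - j)),
        sum_mem fun j hj => mul_mem (hv j hj) (mul_mem (natCast_mem B _) (pow_mem htB _)), ?_⟩
      rw [mul_sum]
      refine sum_congr rfl fun j hj => ?_
      rw [hv2 j hj]
      ring
    obtain ⟨v, hv, h6⟩ := h5
    rw [h2, h6] at h3
    have hcop : Nat.Coprime i.factorial p := by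
      rw [Nat.coprime_comm, hp.coprime_iff_not_dvd, hp.dvd_factorial]
      omega
    obtain ⟨a, b, hab⟩ := (Nat.isCoprime_iff_coprime.mpr hcop)
    have hab' : (a : F) * (i.factorial : F) + (b : F) * (p : F) = 1 := by
      have := congrArg (fun z : ℤ => (z : F)) hab
      simpa using this
    refine ⟨a * (w - v) + b * hc δ g p i, add_mem (mul_mem (intCast_mem B a) (sub_mem hw hv))
      (mul_mem (intCast_mem B b) (hc_mem δ g B hB hg _ _)), ?_⟩
    linear_combination (-(hc δ g p i)) * hab' - (a : F) * h3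

end Pool.Agent.Q80.TC
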