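import Mathlib
import Pool.Agent.Q80.TC.Core
import Pool.Agent.Q80.TC.Hoch
import Pool.Agent.Q80.PB.Cond

set_option autoImplicit false

open Polynomial Module
open Pool.Agent.W77.IM Pool.Agent.W432.PC Pool.Agent.Q80.PB

namespace Pool.Agent.Q80.TC

universe u v w

variable {R : Type u} [CommRing R] {F : Type v} [Field F] [Algebra R F]

/-- The pullback of the system `d/dt - ∑ j, M j / (t - β j)` by the function `t`, as a connection
over the derivation `δ`. -/
noncomputable def pullT (δ : Derivation R F F) (t : F) {n r : ℕ} (β : Fin n → R)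
    (M : Fin n → Matrix (Fin r) (Fin r) R) (v : Fin r → F) : Fin r → F :=
  fun i => δ (v i) - δ t * ∑ j, (t - algebraMap R F (β j))⁻¹ * ∑ l, algebraMap R F (M j i l) * v l

section basic

variable (δ : Derivation R F F) (t : F) {n r : ℕ} (β : Fin n → R)
    (M : Fin n → Matrix (Fin r) (Fin r) R)

lemma pullT_add (v w : Fin r → F) :
    pullT δ t β M (v + w) = pullT δ t β M v + pullT δ t β M w := by
  funext i
  simp only [pullT, Pi.add_apply, map_add, mul_add, Finset.sum_add_distrib]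
  ring

lemma pullT_zero : pullT δ t β M 0 = 0 := by
  funext i
  simp [pullT]

/-- The connection as an additive map. -/
noncomputable def pullTHom : (Fin r → F) →+ (Fin r → F) where
  toFun := pullT δ t β M
  map_zero' := pullT_zero δ t β M
  map_add' := pullT_add δ t β M

lemma pullT_smul (f : F) (v : Fin r → F) :
    pullT δ t β M (f • v) = δ f • v + f • pullT δ t β M v := by
  funext i
  simp only [pullT, Pi.smul_apply, Pi.add_apply, smul_eq_mul, Derivation.leibniz]
  have : ∑ j, (t - algebraMap R F (β j))⁻¹ * ∑ l, algebraMap R F (M j i l) * (f * v l) =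
      f * ∑ j, (t - algebraMap R F (β j))⁻¹ * ∑ l, algebraMap R F (M j i l) * v l := by
    rw [Finset.mul_sum]
    refine Finset.sum_congr rfl fun j _ => ?_
    rw [Finset.mul_sum, Finset.mul_sum, Finset.mul_sum]
    refine Finset.sum_congr rfl fun l _ => ?_
    ring
  rw [this]
  ring

lemma pullT_eq (ht : δ t ≠ 0) (v : Fin r → F) :
    pullT δ t β M v = (δ t) • pull ((δ t)⁻¹ • δ) t β M v := by
  funext i
  simp only [pullT, pull, Pi.smul_apply, smul_eq_mul, Derivation.smul_apply]
  field_simp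

lemma pull_add (v w : Fin r → F) :
    pull δ t β M (v + w) = pull δ t β M v + pull δ t β M w := map_add (pullHom δ t β M) v w

end basic

section ring

variable (δ : Derivation R F F) (t : F) {n r : ℕ} (β : Fin n → R)
    (M : Fin n → Matrix (Fin r) (Fin r) R)

lemma aeval_mem_B {B : Subring F} (hRB : ∀ a : R, algebraMap R F a ∈ B) (htB : t ∈ B) (f : R[X]) :
    (aeval t f : F) ∈ B := by
  rw [aeval_eq_sum_range]
  refine sum_mem fun i _ => ?_
  rw [Algebra.smul_def]
  exact mul_mem (hRB _) (pow_mem htB _)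

lemma aeval_mem_MB {B : Subring F} (htB : t ∈ B) {𝔪 : Ideal R} {f : R[X]}
    (hf : ∀ m, f.coeff m ∈ 𝔪) : (aeval t f : F) ∈ MB B 𝔪 := by
  rw [aeval_eq_sum_range]
  refine sum_mem fun i _ => ?_
  rw [Algebra.smul_def]
  exact MB_of (hf i) (pow_mem htB _)

/-- The `p`-curvature of the pullback on the basis. -/
lemma basis_iter (ht : δ t ≠ 0) (hTt : (aeval t (T β) : F) ≠ 0) {B : Subring F}
    (hRB : ∀ a : R, algebraMap R F a ∈ B)
    (hB : ∀ a ∈ B, δ a ∈ B) (htB : t ∈ B) (hgB : δ t ∈ B) (hTB : (aeval t (T β) : F)⁻¹ ∈ B)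
    {p : ℕ} (hp : p.Prime) (hδp : ∀ a ∈ B, ∃ v ∈ B, δ^[p] a = p * v) {𝔪 : Ideal R}
    (hpm : (p : R) ∈ 𝔪) (hQ : ∀ l c m, (Q β M p l c).coeff m ∈ 𝔪) (c l : Fin r) :
    (pullT δ t β M)^[p] (Pi.single c 1) l ∈ MB B 𝔪 := by
  set D : Derivation R F F := (δ t)⁻¹ • δ with hD
  have hDt : D t = 1 := by
    rw [hD, Derivation.smul_apply, smul_eq_mul, inv_mul_cancel₀ ht]
  have hδD : ∀ f, δ f = δ t * D f := by
    intro f
    rw [hD, Derivation.smul_apply, smul_eq_mul, ← mul_assoc, mul_inv_cancel₀ ht, one_mul]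
  have hit : ∀ i, (pull D t β M)^[i] (Pi.single c 1) l =
      ((aeval t (T β) : F)⁻¹) ^ i * aeval t (Q β M i l c) := by
    intro i
    rw [← pull_iterate D t β M hDt hTt c i l, ← mul_assoc, ← mul_pow, inv_mul_cancel₀ hTt,
      one_pow, one_mul]
  have hexp := hc_expand (δ.restrictScalars ℤ) (δ t) (D.restrictScalars ℤ) (fun f => hδD f)
    (pull D t β M) (pullT δ t β M) (pull_add D t β M)
    (map_zero (pullHom D t β M)) (pull_smul D t β M)
    (fun a => pullT_eq δ t β M ht a) p (Pi.single c 1)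
  rw [hexp, Finset.sum_apply, Finset.sum_range_succ]
  refine add_mem (sum_mem fun i hi => ?_) ?_
  · obtain ⟨v, hv, h1⟩ := hc_p (δ.restrictScalars ℤ) (D.restrictScalars ℤ) (δ t) t
      (fun f => hδD f) hDt B hB hgB htB hp hδp i (Finset.mem_range.mp hi)
    rw [Pi.smul_apply, h1, hit, smul_eq_mul]
    have h2 : (p : F) * v * (((aeval t (T β) : F)⁻¹) ^ i * aeval t (Q β M i l c)) =
        algebraMap R F (p : R) * (v * (((aeval t (T β) : F)⁻¹) ^ i * aeval t (Q β M i l c))) := by
      rw [map_natCast]; ring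
    rw [h2]
    exact MB_of hpm (mul_mem hv (mul_mem (pow_mem hTB _) (aeval_mem_B t hRB htB _)))
  · rw [Pi.smul_apply, hit, smul_eq_mul, ← mul_assoc]
    refine MB_mul (aeval_mem_MB t htB (hQ l c)) (mul_mem ?_ (pow_mem hTB _))
    exact hc_mem (δ.restrictScalars ℤ) (δ t) B hB hgB p p

end ring

end Pool.Agent.Q80.TC
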