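import Mathlib

/-!
Correspondences between systems of linear differential equations: definitions.
-/

set_option autoImplicit false

namespace Pool.Agent.Q80.TC

universe u v

variable {R : Type u} [CommRing R] {F : Type v} [Field F] [Algebra R F]

/-- The connection `δ - G` on `F ^ ι`. -/
noncomputable def conn {ι : Type*} [Fintype ι] (δ : Derivation R F F) (G : Matrix ι ι F)
    (v : ι → F) : ι → F :=
  fun i => δ (v i) - ∑ j, G i j * v j

/-- The connections which are built from the connection `δ - G` by the constructions of linear
algebra: `Built G N H` means that the connection `δ - H` on `F ^ N` is obtained from the connection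
`δ - G` and the trivial one by tensor products, duals and direct sums. -/
inductive Built {F : Type v} [Field F] {s : ℕ} (G : Matrix (Fin s) (Fin s) F) :
    (N : ℕ) → Matrix (Fin N) (Fin N) F → Prop
  | std : Built G s G
  | triv : Built G 1 0
  | dual {N : ℕ} {H : Matrix (Fin N) (Fin N) F} : Built G N H → Built G N (-H.transpose)
  | tens {N N' : ℕ} {H : Matrix (Fin N) (Fin N) F} {H' : Matrix (Fin N') (Fin N') F} :
      Built G N H → Built G N' H' → Built G (N * N')
        (Matrix.reindex finProdFinEquiv finProdFinEquiv
          (Matrix.kronecker H 1 + Matrix.kronecker 1 H'))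
  | sum {N N' : ℕ} {H : Matrix (Fin N) (Fin N) F} {H' : Matrix (Fin N') (Fin N') F} :
      Built G N H → Built G N' H' → Built G (N + N')
        (Matrix.reindex finSumFinEquiv finSumFinEquiv (Matrix.fromBlocks H 0 0 H'))

/-- The matrix of the pullback of the system `d/dt - ∑ j, M j / (t - β j)` by the function `t`: the
pullback is the connection `δ - pmat`. -/
noncomputable def pmat (δ : Derivation R F F) (t : F) {n r : ℕ} (β : Fin n → R)
    (M : Fin n → Matrix (Fin r) (Fin r) R) : Matrix (Fin r) (Fin r) F :=
  fun i l => δ t * ∑ j, (t - algebraMap R F (β j))⁻¹ * algebraMap R F (M j i l)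

/-- `Corr α A β M δ x t`: the systems with the matrices `A` (with poles at the `α j`) and `M` (with
poles at the `β j`) correspond on the curve with the function field `F`. Here `F` is algebraic over
`R(x)`, with the derivation `δ = d/dx`, and `t ∈ F` is not constant. The condition is that the pullback
by `x` of the first system is a subquotient of a bundle with connection which is built by tensor
products, duals and direct sums (`Built`) from the pullback by `t` of the second system: `W` is a
stable subspace, and `φ` is a horizontal linear map of `W` onto the pullback by `x`. -/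
structure Corr {n r m s : ℕ} (α : Fin n → R) (A : Fin n → Matrix (Fin r) (Fin r) R)
    (β : Fin m → R) (M : Fin m → Matrix (Fin s) (Fin s) R) (δ : Derivation R F F) (x t : F) :
    Prop where
  inj : Function.Injective (algebraMap R F)
  dx : δ x = 1
  alg : ∀ z : F, IsAlgebraic (Algebra.adjoin R ({x} : Set F)) z
  dt : δ t ≠ 0
  sub : ∃ (N : ℕ) (H : Matrix (Fin N) (Fin N) F) (W : Submodule F (Fin N → F))
    (φ : (Fin N → F) →ₗ[F] (Fin r → F)), Built (pmat δ t β M) N H ∧ (∀ v ∈ W, conn δ H v ∈ W) ∧
      W.map φ = ⊤ ∧ ∀ v ∈ W, φ (conn δ H v) = conn δ (pmat δ x α A) (φ v)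

end Pool.Agent.Q80.TC
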