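import Mathlib
import Pool.Agent.Q80.TC.Corr
import Pool.Agent.Q80.TC.Defs

set_option autoImplicit false

open Polynomial Module Finset
open Pool.Agent.W77.IM Pool.Agent.W432.PC Pool.Agent.Q80.PB

namespace Pool.Agent.Q80.TC

universe u v w

variable {R : Type u} [CommRing R] {F : Type v} [Field F] [Algebra R F]

section conn

variable {ι : Type*} [Fintype ι] (δ : Derivation R F F) (G : Matrix ι ι F)

lemma conn_add (v w : ι → F) : conn δ G (v + w) = conn δ G v + conn δ G w := by
  funext i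
  simp only [conn, Pi.add_apply, map_add, mul_add, Finset.sum_add_distrib]
  ring

lemma conn_zero : conn δ G (0 : ι → F) = 0 := by
  funext i
  simp [conn]

/-- The connection as an additive map. -/
noncomputable def connHom : (ι → F) →+ (ι → F) where
  toFun := conn δ G
  map_zero' := conn_zero δ G
  map_add' := conn_add δ G

lemma conn_smul (f : F) (v : ι → F) : conn δ G (f • v) = δ f • v + f • conn δ G v := by
  funext i
  simp only [conn, Pi.smul_apply, Pi.add_apply, smul_eq_mul, Derivation.leibniz]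
  have : ∑ j, G i j * (f * v j) = f * ∑ j, G i j * v j := by
    rw [Finset.mul_sum]
    exact Finset.sum_congr rfl fun j _ => by ring
  rw [this]
  ring

lemma conn_mem {B : Subring F} (hB : ∀ a ∈ B, δ a ∈ B) (hG : ∀ i j, G i j ∈ B) (w : ι → F)
    (hw : ∀ l, w l ∈ B) (l : ι) : conn δ G w l ∈ B :=
  sub_mem (hB _ (hw l)) (sum_mem fun _ _ => mul_mem (hG _ _) (hw _))

lemma conn_iter_mem {B : Subring F} (hB : ∀ a ∈ B, δ a ∈ B) (hG : ∀ i j, G i j ∈ B) (w : ι → F)
    (hw : ∀ l, w l ∈ B) (n : ℕ) (l : ι) : (conn δ G)^[n] w l ∈ B := by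
  induction n generalizing l with
  | zero => exact hw l
  | succ n ih =>
    rw [Function.iterate_succ_apply']
    exact conn_mem δ G hB hG _ ih l

/-- The `p`-th iterate on the vectors with entries in a subring. -/
lemma conn_leib {B : Subring F} (hB : ∀ a ∈ B, δ a ∈ B) (hG : ∀ i j, G i j ∈ B) {p : ℕ}
    (hp : p.Prime) {f : F} (hf : f ∈ B) {w : ι → F} (hw : ∀ l, w l ∈ B) :
    ∃ v : ι → F, (∀ l, v l ∈ B) ∧ (conn δ G)^[p] (f • w) =
      δ^[p] f • w + f • (conn δ G)^[p] w + (p : F) • v := by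
  let d : B → B := fun c => ⟨δ c, hB c c.2⟩
  let D : (ι → B) →+ (ι → B) :=
    { toFun := fun w l => ⟨conn δ G (fun l => (w l : F)) l,
        conn_mem δ G hB hG _ (fun l => (w l).2) l⟩
      map_zero' := by
        funext l
        apply Subtype.ext
        show conn δ G (fun l => (0 : F)) l = 0
        have : (fun _ : ι => (0 : F)) = 0 := rfl
        rw [this, conn_zero]
        rfl
      map_add' := fun a b => by
        funext l
        apply Subtype.ext
        show conn δ G (fun l => ((a l : F) + (b l : F))) l =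
          conn δ G (fun l => (a l : F)) l + conn δ G (fun l => (b l : F)) l
        exact congrFun (conn_add δ G (fun l => (a l : F)) (fun l => (b l : F))) l }
  have hd : ∀ (m : ℕ) (c : B), ((d^[m] c : B) : F) = δ^[m] (c : F) := by
    intro m c
    induction m with
    | zero => rfl
    | succ m ih => rw [Function.iterate_succ_apply', Function.iterate_succ_apply', ← ih]
  have hD : ∀ (m : ℕ) (w : ι → B), (fun l => ((D^[m] w l : B) : F)) =
      (conn δ G)^[m] (fun l => (w l : F)) := by
    intro m w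
    induction m with
    | zero => rfl
    | succ m ih => rw [Function.iterate_succ_apply', Function.iterate_succ_apply', ← ih]; rfl
  obtain ⟨v, hv⟩ := pleib d D (fun a m => by
    funext l
    apply Subtype.ext
    exact congrFun (conn_smul δ G (a : F) (fun l => (m l : F))) l) hp (⟨f, hf⟩ : B)
      (fun l => (⟨w l, hw l⟩ : B))
  refine ⟨fun l => (v l : F), fun l => (v l).2, ?_⟩
  have h1 := congrArg (fun c : ι → B => fun l => (c l : F)) hv
  simp only [hD] at h1
  have h2 : (fun l => (((⟨f, hf⟩ : B) • fun l => (⟨w l, hw l⟩ : B)) l : F)) = f • w := rfl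
  rw [h2] at h1
  rw [h1]
  funext l
  simp only [Pi.add_apply, Pi.smul_apply, smul_eq_mul, Subring.coe_add, Subring.coe_mul, hd]
  have h3 := congrFun (hD p (fun l => (⟨w l, hw l⟩ : B))) l
  simp only at h3
  rw [h3]
  simp

lemma p_mul_mem {B : Subring F} {p : ℕ} {𝔪 : Ideal R} (hpm : (p : R) ∈ 𝔪) {z : F} (hz : z ∈ B) :
    (p : F) * z ∈ MB B 𝔪 := by
  have := MB_of hpm hz
  rwa [map_natCast] at this

/-- The `p`-curvature is zero modulo `𝔪 B`. -/
def PZ (δ : Derivation R F F) (B : Subring F) (p : ℕ) (𝔪 : Ideal R) (G : Matrix ι ι F) : Prop :=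
  (∀ i j, G i j ∈ B) ∧ ∀ w : ι → F, (∀ l, w l ∈ B) → ∀ l, (conn δ G)^[p] w l ∈ MB B 𝔪

lemma PZ_of_basis [DecidableEq ι] {B : Subring F} (hB : ∀ a ∈ B, δ a ∈ B)
    (hG : ∀ i j, G i j ∈ B) {p : ℕ} (hp : p.Prime) (hδp : ∀ a ∈ B, ∃ v ∈ B, δ^[p] a = p * v)
    {𝔪 : Ideal R} (hpm : (p : R) ∈ 𝔪)
    (h : ∀ c l, (conn δ G)^[p] (Pi.single c 1) l ∈ MB B 𝔪) : PZ δ B p 𝔪 G := by
  refine ⟨hG, fun w hw l => ?_⟩
  have h2 : w = ∑ c, w c • (Pi.single c 1 : ι → F) := by
    funext i
    rw [Finset.sum_apply, Finset.sum_eq_single i]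
    · simp
    · intro j _ hj
      simp [Pi.single_eq_of_ne (Ne.symm hj)]
    · intro h; exact absurd (Finset.mem_univ i) h
  have h3 : ∀ s : Finset ι,
      (connHom δ G)^[p] (∑ c ∈ s, w c • (Pi.single c 1 : ι → F)) l ∈ MB B 𝔪 := by
    intro s
    induction s using Finset.induction_on with
    | empty => rw [Finset.sum_empty, iterate_map_zero]; exact zero_mem _
    | insert a s ha ih =>
      rw [Finset.sum_insert ha, iterate_map_add, Pi.add_apply]
      refine add_mem ?_ ih
      have hsB : ∀ l, (Pi.single a 1 : ι → F) l ∈ B := by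
        intro l
        by_cases h : l = a
        · subst h; rw [Pi.single_eq_same]; exact B.one_mem
        · rw [Pi.single_eq_of_ne h]; exact B.zero_mem
      obtain ⟨v, hv, h4⟩ := conn_leib δ G hB hG hp (hw a) hsB
      have h5 : (connHom δ G)^[p] (w a • (Pi.single a 1 : ι → F)) =
        (conn δ G)^[p] (w a • (Pi.single a 1 : ι → F)) := rfl
      rw [h5, h4]
      simp only [Pi.add_apply, Pi.smul_apply, smul_eq_mul]
      obtain ⟨z, hz, h6⟩ := hδp _ (hw a)
      refine add_mem (add_mem ?_ ?_) ?_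
      · rw [h6, mul_assoc]
        exact p_mul_mem hpm (mul_mem hz (hsB l))
      · exact MB_mul (h a l) (hw a)
      · exact p_mul_mem hpm (hv l)
  have h4 := h3 Finset.univ
  rw [← h2] at h4
  exact h4

end conn

/-- The binomial formula for a pairing, modulo `p`. -/
lemma bilin {V₁ V₂ V₃ : Type*} [AddCommGroup V₃] (A₁ : V₁ → V₁) (A₂ : V₂ → V₂) (A₃ : V₃ →+ V₃)
    (b : V₁ → V₂ → V₃) (hb : ∀ v w, A₃ (b v w) = b (A₁ v) w + b v (A₂ w)) {p : ℕ} (hp : p.Prime)
    (v : V₁) (w : V₂) (𝓜 : AddSubgroup V₃)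
    (h : ∀ i j, p • b (A₁^[i] v) (A₂^[j] w) ∈ 𝓜) :
    A₃^[p] (b v w) - (b (A₁^[p] v) w + b v (A₂^[p] w)) ∈ 𝓜 := by
  have key : ∀ n : ℕ, A₃^[n] (b v w) = ∑ ij ∈ antidiagonal n,
      n.choose ij.1 • b (A₁^[ij.1] v) (A₂^[ij.2] w) := by
    intro n
    induction n with
    | zero => simp
    | succ n ih =>
      rw [Function.iterate_succ_apply', ih, map_sum,
        Finset.sum_antidiagonal_choose_succ_nsmul (fun i j => b (A₁^[i] v) (A₂^[j] w)) n,
        ← Finset.sum_add_distrib]
      refine Finset.sum_congr rfl fun ij hij => ?_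
      have h1 : n.choose ij.2 = n.choose ij.1 := by
        rw [Finset.HasAntidiagonal.mem_antidiagonal] at hij
        rw [← hij]
        exact Nat.choose_symm_add.symm
      rw [map_nsmul, hb, h1, nsmul_add, ← Function.iterate_succ_apply' A₁,
        ← Function.iterate_succ_apply' A₂, add_comm]
  rw [key p]
  have hmem1 : (0, p) ∈ antidiagonal p := by simp
  have hmem2 : (p, 0) ∈ (antidiagonal p).erase (0, p) := by
    rw [mem_erase]
    refine ⟨?_, by simp⟩
    intro h0
    have := congrArg Prod.fst h0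
    simp only at this
    exact hp.ne_zero this
  rw [← Finset.add_sum_erase _ _ hmem1, ← Finset.add_sum_erase _ _ hmem2]
  simp only [Nat.choose_zero_right, one_smul, Nat.choose_self, Function.iterate_zero, id_eq]
  have h2 : ∑ ij ∈ ((antidiagonal p).erase (0, p)).erase (p, 0),
      p.choose ij.1 • b (A₁^[ij.1] v) (A₂^[ij.2] w) ∈ 𝓜 := by
    refine sum_mem fun ij hij => ?_
    rw [mem_erase, mem_erase, Finset.HasAntidiagonal.mem_antidiagonal] at hij
    obtain ⟨h3, h4, h5⟩ := hij
    have h6 : ij.1 ≠ 0 := by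
      intro h0
      apply h4
      ext
      · exact h0
      · simp only; omega
    have h7 : ij.1 < p := by
      rcases Nat.lt_or_ge ij.1 p with h8 | h8
      · exact h8
      · exfalso
        apply h3
        ext
        · simp only; omega
        · simp only; omega
    obtain ⟨k, hk⟩ := hp.dvd_choose_self h6 h7
    rw [hk, mul_comm, mul_nsmul']
    exact AddSubgroup.nsmul_mem _ (h _ _) k
  have h3 : b v (A₂^[p] w) + (b (A₁^[p] v) w + ∑ ij ∈ ((antidiagonal p).erase (0, p)).erase (p, 0),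
      p.choose ij.1 • b (A₁^[ij.1] v) (A₂^[ij.2] w)) - (b (A₁^[p] v) w + b v (A₂^[p] w)) =
      ∑ ij ∈ ((antidiagonal p).erase (0, p)).erase (p, 0),
      p.choose ij.1 • b (A₁^[ij.1] v) (A₂^[ij.2] w) := by abel
  rw [h3]
  exact h2

/-- The Kronecker sum `G ⊗ 1 + 1 ⊗ H`. -/
def kronSum {ι κ : Type*} [DecidableEq ι] [DecidableEq κ] (G : Matrix ι ι F) (H : Matrix κ κ F) :
    Matrix (ι × κ) (ι × κ) F :=
  fun i j => (if i.2 = j.2 then G i.1 j.1 else 0) + (if i.1 = j.1 then H i.2 j.2 else 0)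

/-- The block sum. -/
def blockSum {ι κ : Type*} (G : Matrix ι ι F) (H : Matrix κ κ F) : Matrix (ι ⊕ κ) (ι ⊕ κ) F
  | .inl i, .inl j => G i j
  | .inl _, .inr _ => 0
  | .inr _, .inl _ => 0
  | .inr i, .inr j => H i j

section closure

variable {ι κ : Type*} [Fintype ι] [Fintype κ] (δ : Derivation R F F)
  {B : Subring F} (hB : ∀ a ∈ B, δ a ∈ B)
  {p : ℕ} (hp : p.Prime) (hδp : ∀ a ∈ B, ∃ v ∈ B, δ^[p] a = p * v)
  {𝔪 : Ideal R} (hpm : (p : R) ∈ 𝔪)

include hδp hpm in
lemma PZ_triv : PZ δ B p 𝔪 (0 : Matrix ι ι F) := by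
  refine ⟨fun i j => B.zero_mem, fun w hw l => ?_⟩
  have h1 : ∀ n, (conn δ (0 : Matrix ι ι F))^[n] w l = δ^[n] (w l) := by
    intro n
    induction n generalizing l with
    | zero => rfl
    | succ n ih =>
      rw [Function.iterate_succ_apply', Function.iterate_succ_apply', ← ih]
      simp [conn]
  rw [h1]
  obtain ⟨v, hv, h2⟩ := hδp _ (hw l)
  rw [h2]
  exact p_mul_mem hpm hv

lemma PZ_blockSum {G : Matrix ι ι F} {H : Matrix κ κ F} (h1 : PZ δ B p 𝔪 G)
    (h2 : PZ δ B p 𝔪 H) : PZ δ B p 𝔪 (blockSum G H) := by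
  refine ⟨?_, fun w hw l => ?_⟩
  · rintro (i | i) (j | j)
    · exact h1.1 i j
    · exact B.zero_mem
    · exact B.zero_mem
    · exact h2.1 i j
  · have hl : ∀ n, (fun i => (conn δ (blockSum G H))^[n] w (Sum.inl i)) =
        (conn δ G)^[n] (fun i => w (Sum.inl i)) := by
      intro n
      induction n with
      | zero => rfl
      | succ n ih =>
        rw [Function.iterate_succ_apply' (conn δ G), ← ih]
        funext i
        rw [Function.iterate_succ_apply']
        simp [conn, blockSum]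
    have hr : ∀ n, (fun i => (conn δ (blockSum G H))^[n] w (Sum.inr i)) =
        (conn δ H)^[n] (fun i => w (Sum.inr i)) := by
      intro n
      induction n with
      | zero => rfl
      | succ n ih =>
        rw [Function.iterate_succ_apply' (conn δ H), ← ih]
        funext i
        rw [Function.iterate_succ_apply']
        simp [conn, blockSum]
    rcases l with l | l
    · have := congrFun (hl p) l
      rw [this]
      exact h1.2 _ (fun i => hw _) l
    · have := congrFun (hr p) l
      rw [this]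
      exact h2.2 _ (fun i => hw _) l

include hB hp hδp hpm in
lemma PZ_dual {G : Matrix ι ι F} (h : PZ δ B p 𝔪 G) :
    PZ δ B p 𝔪 (fun i j => -(G j i) : Matrix ι ι F) := by
  classical
  have hG' : ∀ i j, -(G j i) ∈ B := fun i j => neg_mem (h.1 j i)
  refine ⟨hG', fun w hw l => ?_⟩
  have hsB : ∀ k, (Pi.single l 1 : ι → F) k ∈ B := by
    intro k
    by_cases h : k = l
    · subst h; rw [Pi.single_eq_same]; exact B.one_mem
    · rw [Pi.single_eq_of_ne h]; exact B.zero_mem
  have h1 := bilin (conn δ (fun i j => -(G j i) : Matrix ι ι F)) (conn δ G)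
    ((δ : F →ₗ[R] F).toAddMonoidHom) (fun v w => ∑ i, v i * w i) (fun v w => by
      show δ (∑ i, v i * w i) = _
      rw [map_sum]
      simp only [conn, Derivation.leibniz, smul_eq_mul, sub_mul, mul_sub, Finset.sum_sub_distrib,
        Finset.sum_add_distrib, Finset.sum_mul, Finset.mul_sum]
      have : ∑ x, ∑ i, -G i x * v i * w x = - ∑ x, ∑ i, v x * (G x i * w i) := by
        rw [Finset.sum_comm, ← Finset.sum_neg_distrib]
        refine Finset.sum_congr rfl fun i _ => ?_
        rw [← Finset.sum_neg_distrib]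
        refine Finset.sum_congr rfl fun j _ => ?_
        ring
      rw [this]
      have h3 : ∑ x, w x * δ (v x) = ∑ x, δ (v x) * w x :=
        Finset.sum_congr rfl fun i _ => mul_comm _ _
      rw [h3]
      ring) hp w (Pi.single l 1) (MB B 𝔪) (fun i j => by
        rw [nsmul_eq_mul]
        exact p_mul_mem hpm (sum_mem fun k _ => mul_mem (conn_iter_mem δ _ hB hG' _ hw _ _)
          (conn_iter_mem δ _ hB h.1 _ hsB _ _)))
  have h2 : ∑ i, w i * (Pi.single l 1 : ι → F) i = w l := by
    rw [Finset.sum_eq_single l]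
    · rw [Pi.single_eq_same, mul_one]
    · intro j _ hj
      rw [Pi.single_eq_of_ne hj, mul_zero]
    · intro h; exact absurd (Finset.mem_univ l) h
  have h3 : ∀ u : ι → F, ∑ i, u i * (Pi.single l 1 : ι → F) i = u l := by
    intro u
    rw [Finset.sum_eq_single l]
    · rw [Pi.single_eq_same, mul_one]
    · intro j _ hj
      rw [Pi.single_eq_of_ne hj, mul_zero]
    · intro h; exact absurd (Finset.mem_univ l) h
  simp only [h3] at h1
  have h4 : (⇑((δ : F →ₗ[R] F).toAddMonoidHom))^[p] (w l) = δ^[p] (w l) := rfl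
  rw [h4] at h1
  obtain ⟨z, hz, h5⟩ := hδp _ (hw l)
  have h6 : δ^[p] (w l) ∈ MB B 𝔪 := by rw [h5]; exact p_mul_mem hpm hz
  have h7 : ∑ i, w i * (conn δ G)^[p] (Pi.single l 1) i ∈ MB B 𝔪 :=
    sum_mem fun i _ => MB_mul (h.2 _ hsB i) (hw i)
  have h8 := sub_mem (sub_mem h6 h1) h7
  have h9 : δ^[p] (w l) - (δ^[p] (w l) - ((conn δ (fun i j => -(G j i) : Matrix ι ι F))^[p] w l +
      ∑ i, w i * (conn δ G)^[p] (Pi.single l 1) i)) -
      ∑ i, w i * (conn δ G)^[p] (Pi.single l 1) i =
      (conn δ (fun i j => -(G j i) : Matrix ι ι F))^[p] w l := by ring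
  rw [h9] at h8
  exact h8

include hB hp hδp hpm in
lemma PZ_kronSum [DecidableEq ι] [DecidableEq κ] {G : Matrix ι ι F} {H : Matrix κ κ F}
    (h1 : PZ δ B p 𝔪 G) (h2 : PZ δ B p 𝔪 H) : PZ δ B p 𝔪 (kronSum G H) := by
  have hG : ∀ i j, kronSum G H i j ∈ B := by
    intro i j
    unfold kronSum
    refine add_mem ?_ ?_
    · split_ifs
      · exact h1.1 _ _
      · exact B.zero_mem
    · split_ifs
      · exact h2.1 _ _
      · exact B.zero_mem
  refine PZ_of_basis δ _ hB hG hp hδp hpm ?_
  rintro ⟨c, d⟩ ⟨k, l⟩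
  have hs1 : ∀ k, (Pi.single c 1 : ι → F) k ∈ B := by
    intro k
    by_cases h : k = c
    · subst h; rw [Pi.single_eq_same]; exact B.one_mem
    · rw [Pi.single_eq_of_ne h]; exact B.zero_mem
  have hs2 : ∀ k, (Pi.single d 1 : κ → F) k ∈ B := by
    intro k
    by_cases h : k = d
    · subst h; rw [Pi.single_eq_same]; exact B.one_mem
    · rw [Pi.single_eq_of_ne h]; exact B.zero_mem
  -- the additive group of the vectors with entries in `MB`
  let 𝓜 : AddSubgroup (ι × κ → F) :=
    { carrier := {w | ∀ z, w z ∈ MB B 𝔪}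
      add_mem' := fun ha hb z => add_mem (ha z) (hb z)
      zero_mem' := fun z => zero_mem _
      neg_mem' := fun ha z => neg_mem (ha z) }
  have h3 := bilin (conn δ G) (conn δ H) (connHom δ (kronSum G H))
    (fun v w => (fun z => v z.1 * w z.2 : ι × κ → F)) (fun v w => by
      funext ⟨i, j⟩
      show conn δ (kronSum G H) (fun z => v z.1 * w z.2) (i, j) = _
      simp only [conn, Pi.add_apply, kronSum, Derivation.leibniz, smul_eq_mul,
        Fintype.sum_prod_type, add_mul, Finset.sum_add_distrib, ite_mul, zero_mul]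
      have e1 : ∑ x, ∑ y, (if j = y then G i x * (v x * w y) else 0) =
          (∑ x, G i x * v x) * w j := by
        rw [Finset.sum_mul]
        refine Finset.sum_congr rfl fun x _ => ?_
        rw [Finset.sum_ite_eq]
        simp only [Finset.mem_univ, if_true]
        ring
      have e2 : ∑ x, ∑ y, (if i = x then H j y * (v x * w y) else 0) =
          v i * ∑ y, H j y * w y := by
        rw [Finset.sum_comm, Finset.mul_sum]
        refine Finset.sum_congr rfl fun y _ => ?_
        rw [Finset.sum_ite_eq]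
        simp only [Finset.mem_univ, if_true]
        ring
      rw [e1, e2]
      ring) hp (Pi.single c 1) (Pi.single d 1) 𝓜 (fun i j z => by
        rw [Pi.smul_apply, nsmul_eq_mul]
        exact p_mul_mem hpm (mul_mem (conn_iter_mem δ _ hB h1.1 _ hs1 _ _)
          (conn_iter_mem δ _ hB h2.1 _ hs2 _ _)))
  have h4 : (fun z => (Pi.single c 1 : ι → F) z.1 * (Pi.single d 1 : κ → F) z.2 : ι × κ → F) =
      Pi.single (c, d) 1 := by
    funext ⟨i, j⟩
    by_cases hi : i = c
    · by_cases hj : j = d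
      · subst hi; subst hj; simp
      · have : ((i, j) : ι × κ) ≠ (c, d) := fun h => hj (congrArg Prod.snd h)
        rw [Pi.single_eq_of_ne this]
        simp only
        rw [Pi.single_eq_of_ne hj, mul_zero]
    · have : ((i, j) : ι × κ) ≠ (c, d) := fun h => hi (congrArg Prod.fst h)
      rw [Pi.single_eq_of_ne this]
      simp only
      rw [Pi.single_eq_of_ne hi, zero_mul]
  rw [h4] at h3
  have h5 := h3 (k, l)
  have h6 : (conn δ G)^[p] (Pi.single c 1) k * (Pi.single d 1 : κ → F) l ∈ MB B 𝔪 := by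
    rw [mul_comm]; exact MB_mul (h1.2 _ hs1 k) (hs2 l)
  have h7 : (Pi.single c 1 : ι → F) k * (conn δ H)^[p] (Pi.single d 1) l ∈ MB B 𝔪 :=
    MB_mul (h2.2 _ hs2 l) (hs1 k)
  have h8 := add_mem h5 (add_mem h6 h7)
  have h9 : ((connHom δ (kronSum G H))^[p] (Pi.single (c, d) 1) -
      ((fun z : ι × κ => (conn δ G)^[p] (Pi.single c 1) z.1 * (Pi.single d 1 : κ → F) z.2) +
      (fun z : ι × κ => (Pi.single c 1 : ι → F) z.1 * (conn δ H)^[p] (Pi.single d 1) z.2)))
      (k, l) +
      ((conn δ G)^[p] (Pi.single c 1) k * (Pi.single d 1 : κ → F) l +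
      (Pi.single c 1 : ι → F) k * (conn δ H)^[p] (Pi.single d 1) l) =
      (conn δ (kronSum G H))^[p] (Pi.single (c, d) 1) (k, l) := by
    simp only [Pi.sub_apply, Pi.add_apply]
    have : (connHom δ (kronSum G H))^[p] (Pi.single (c, d) 1) (k, l) =
      (conn δ (kronSum G H))^[p] (Pi.single (c, d) 1) (k, l) := rfl
    rw [this]
    ring
  rw [h9] at h8
  exact h8

lemma conn_reindex (e : ι ≃ κ) (G : Matrix ι ι F) (v : κ → F) :
    conn δ (Matrix.reindex e e G) v = fun j => conn δ G (fun i => v (e i)) (e.symm j) := by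
  funext j
  unfold conn
  simp only [Matrix.reindex_apply, Matrix.submatrix_apply, Equiv.apply_symm_apply]
  congr 1
  rw [← Equiv.sum_comp e]
  simp

lemma PZ_reindex (e : ι ≃ κ) {G : Matrix ι ι F} (h : PZ δ B p 𝔪 G) :
    PZ δ B p 𝔪 (Matrix.reindex e e G) := by
  refine ⟨fun i j => h.1 _ _, fun w hw l => ?_⟩
  have h1 : ∀ n, (fun i => (conn δ (Matrix.reindex e e G))^[n] w (e i)) =
      (conn δ G)^[n] (fun i => w (e i)) := by
    intro n
    induction n with
    | zero => rfl
    | succ n ih =>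
      rw [Function.iterate_succ_apply' (conn δ G), ← ih]
      funext i
      rw [Function.iterate_succ_apply', conn_reindex]
      simp only [Equiv.symm_apply_apply]
  have h2 := congrFun (h1 p) (e.symm l)
  simp only [Equiv.apply_symm_apply] at h2
  rw [h2]
  exact h.2 _ (fun i => hw _) _

lemma kron_eq [DecidableEq ι] [DecidableEq κ] (G : Matrix ι ι F) (H : Matrix κ κ F) :
    Matrix.kronecker G 1 + Matrix.kronecker 1 H = kronSum G H := by
  ext ⟨i, j⟩ ⟨i', j'⟩
  simp [kronSum, Matrix.kronecker, Matrix.kroneckerMap_apply, Matrix.one_apply]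

lemma block_eq (G : Matrix ι ι F) (H : Matrix κ κ F) :
    Matrix.fromBlocks G 0 0 H = blockSum G H := by
  ext (i | i) (j | j) <;> rfl

include hB hp hδp hpm in
lemma PZ_built {s : ℕ} {G : Matrix (Fin s) (Fin s) F} (h : PZ δ B p 𝔪 G) {N : ℕ}
    {H : Matrix (Fin N) (Fin N) F} (hH : Built G N H) : PZ δ B p 𝔪 H := by
  induction hH with
  | std => exact h
  | triv => exact PZ_triv δ hδp hpm
  | dual _ ih => exact PZ_dual δ hB hp hδp hpm ih
  | tens _ _ ih ih' =>
    refine PZ_reindex δ _ ?_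
    rw [kron_eq]
    exact PZ_kronSum δ hB hp hδp hpm ih ih'
  | sum _ _ ih ih' =>
    refine PZ_reindex δ _ ?_
    rw [block_eq]
    exact PZ_blockSum δ ih ih'

end closure

end Pool.Agent.Q80.TC
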