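import Mathlib
import Pool.Agent.Q80.TC.Tan
import Pool.Agent.Q80.PB.Dens

set_option autoImplicit false

open Polynomial Module Finset
open Pool.Agent.W77.IM Pool.Agent.W432.PC Pool.Agent.Q80.PB

namespace Pool.Agent.Q80.TC

universe u v w

variable {R : Type u} [CommRing R] {F : Type v} [Field F] [Algebra R F]

lemma conn_pmat (δ : Derivation R F F) (t : F) {n r : ℕ} (β : Fin n → R)
    (M : Fin n → Matrix (Fin r) (Fin r) R) (v : Fin r → F) :
    conn δ (pmat δ t β M) v = pullT δ t β M v := by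
  funext i
  unfold conn pullT pmat
  congr 1
  simp only [Finset.mul_sum, Finset.sum_mul]
  rw [Finset.sum_comm]
  refine Finset.sum_congr rfl fun j _ => Finset.sum_congr rfl fun l _ => ?_
  ring

lemma conn_pmat_x (δ : Derivation R F F) (x : F) (hx : δ x = 1) {n r : ℕ} (α : Fin n → R)
    (A : Fin n → Matrix (Fin r) (Fin r) R) (v : Fin r → F) :
    conn δ (pmat δ x α A) v = pull δ x α A v := by
  rw [conn_pmat]
  funext i
  unfold pullT pull
  rw [hx, one_mul]

variable [IsDomain R] [CharZero R]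

/-- **Transfer of `p`-curvatures.** The category generated by the pullback by `t` of the system with
the matrices `M` contains the pullback by `x` of the system with the matrices `A`. -/
theorem tannaka {n r : ℕ} {α : Fin n → R} {A : Fin n → Matrix (Fin r) (Fin r) R}
    {m s : ℕ} {β : Fin m → R} {M : Fin m → Matrix (Fin s) (Fin s) R} {δ : Derivation R F F}
    {x t : F} (hC : Corr α A β M δ x t) :
    ∃ g : R, g ≠ 0 ∧ ∀ p : ℕ, p.Prime → ∀ (𝔪 : Ideal R) [𝔪.IsMaximal], (p : R) ∈ 𝔪 → g ∉ 𝔪 →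
      PCurvZeroAt β M 𝔪 → PCurvZeroAt α A 𝔪 := by
  classical
  obtain ⟨hR, hx, halg, ht, N', H, W, φ, hH, hW, hφ, hflat⟩ := hC
  obtain ⟨q, s', hs⟩ := Submodule.fg_iff_exists_fin_generating_family.mp
    (IsNoetherian.noetherian W)
  have hspan : Submodule.span F (Set.range (fun k => φ (s' k))) = ⊤ := by
    have h2 : Set.range (fun k => φ (s' k)) = φ '' Set.range s' := by
      rw [← Set.range_comp]; rfl
    rw [h2, Submodule.span_image, hs, hφ]
  have hTt : (aeval t (T β) : F) ≠ 0 := by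
    have : (aeval t (T β) : F) = ∏ j, (t - algebraMap R F (β j)) := by
      unfold T
      rw [map_prod]
      refine Finset.prod_congr rfl fun j _ => ?_
      rw [map_sub, aeval_X, aeval_C]
    rw [this, Finset.prod_ne_zero_iff]
    intro j _ h0
    apply ht
    rw [sub_eq_zero.mp h0, δ.map_algebraMap]
  obtain ⟨g, hg, B, hSB, hRB, hB, hBp, hcore⟩ := core hR δ x hx halg α A
    (({t, δ t, (aeval t (T β) : F)⁻¹} : Finset F) ∪
      ((Finset.univ.image fun z : Fin q × Fin N' => s' z.1 z.2) ∪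
      (Finset.univ.image fun z : Fin N' × Fin r => φ (Pi.single z.1 1) z.2)))
    (fun k => φ (s' k)) hspan
  refine ⟨g, hg, fun p hp 𝔪 h𝔪 hpm hgm hcurv => hcore p hp 𝔪 hpm hgm fun k l => ?_⟩
  have htB : t ∈ B := hSB _ (Finset.mem_union_left _ (by simp))
  have hgB : δ t ∈ B := hSB _ (Finset.mem_union_left _ (by simp))
  have hTB : (aeval t (T β) : F)⁻¹ ∈ B := hSB _ (Finset.mem_union_left _ (by simp))
  have hsB : ∀ k l, s' k l ∈ B := fun k l =>
    hSB _ (Finset.mem_union_right _ (Finset.mem_union_left _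
      (Finset.mem_image.mpr ⟨(k, l), Finset.mem_univ _, rfl⟩)))
  have hφB : ∀ c l, φ (Pi.single c 1) l ∈ B := fun c l =>
    hSB _ (Finset.mem_union_right _ (Finset.mem_union_right _
      (Finset.mem_image.mpr ⟨(c, l), Finset.mem_univ _, rfl⟩)))
  have hQ : ∀ l c m, (Q β M p l c).coeff m ∈ 𝔪 := by
    intro l c m
    unfold PCurvZeroAt at hcurv
    letI : Field (R ⧸ 𝔪) := Ideal.Quotient.field 𝔪
    have hchar : CharP (R ⧸ 𝔪) p := by
      have h1 : ((p : ℕ) : R ⧸ 𝔪) = 0 := by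
        have : ((p : ℕ) : R ⧸ 𝔪) = Ideal.Quotient.mk 𝔪 (p : R) := by simp
        rw [this, Ideal.Quotient.eq_zero_iff_mem]
        exact hpm
      exact (CharP.charP_iff_prime_eq_zero hp).mpr h1
    have h1 := Q_eq_zero_of_pCurvZero hcurv
    have hrc : ringChar (R ⧸ 𝔪) = p := ringChar.eq _ p
    rw [hrc, ← Q_map (Ideal.Quotient.mk 𝔪) β M p] at h1
    have h2 := congrFun (congrFun h1 l) c
    rw [Matrix.map_apply, Matrix.zero_apply] at h2
    have h3 := congrArg (fun f => f.coeff m) h2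
    simp only [coe_mapRingHom, coeff_zero, Polynomial.coeff_map] at h3
    rwa [Ideal.Quotient.eq_zero_iff_mem] at h3
  have hinv : ∀ j, (t - algebraMap R F (β j))⁻¹ ∈ B := by
    intro j
    have h1 := aeval_T_inv t β hTt j
    have h2 : (t - algebraMap R F (β j))⁻¹ = aeval t (Tc β j) * (aeval t (T β))⁻¹ := by
      rw [← h1]; field_simp
    rw [h2]
    exact mul_mem (aeval_mem_B t hRB htB _) hTB
  have hstd : PZ δ B p 𝔪 (pmat δ t β M) := by
    refine PZ_of_basis δ (pmat δ t β M) hB (fun i j => mul_mem hgB (sum_mem fun k _ =>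
      mul_mem (hinv k) (hRB _))) hp (hBp p hp) hpm fun c l => ?_
    have h1 : conn δ (pmat δ t β M) = pullT δ t β M := by
      funext v
      exact conn_pmat δ t β M v
    rw [h1]
    exact basis_iter δ t β M ht hTt hRB hB htB hgB hTB hp (hBp p hp) hpm hQ c l
  have hPZ := PZ_built δ hB hp (hBp p hp) hpm hstd hH
  have hsW : s' k ∈ W := by rw [← hs]; exact Submodule.subset_span ⟨k, rfl⟩
  have hiter : ∀ i : ℕ, (conn δ H)^[i] (s' k) ∈ W ∧
      φ ((conn δ H)^[i] (s' k)) = (pull δ x α A)^[i] (φ (s' k)) := by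
    intro i
    induction i with
    | zero => exact ⟨hsW, rfl⟩
    | succ i ih =>
      rw [Function.iterate_succ_apply', Function.iterate_succ_apply']
      exact ⟨hW _ ih.1, by rw [hflat _ ih.1, ih.2, conn_pmat_x δ x hx]⟩
  rw [← (hiter p).2]
  have hv := hPZ.2 (s' k) (hsB k)
  set w := (conn δ H)^[p] (s' k) with hw
  have h2 : w = ∑ d, w d • (Pi.single d 1 : Fin N' → F) := by
    funext i
    rw [Finset.sum_apply, Finset.sum_eq_single i]
    · simp
    · intro j _ hj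
      simp [Pi.single_eq_of_ne (Ne.symm hj)]
    · intro h; exact absurd (Finset.mem_univ i) h
  rw [h2, map_sum, Finset.sum_apply]
  refine sum_mem fun d _ => ?_
  rw [map_smul, Pi.smul_apply, smul_eq_mul, mul_comm]
  exact MB_mul (hv d) (hφB d l)

/-- From nonzero `p`-curvatures of the system with the matrices `A` to nonzero `p`-curvatures of the
system with the matrices `M`. -/
theorem tannaka_of_bad [Algebra.FiniteType ℤ R] {n r : ℕ} {α : Fin n → R}
    {A : Fin n → Matrix (Fin r) (Fin r) R}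
    {m s : ℕ} {β : Fin m → R} {M : Fin m → Matrix (Fin s) (Fin s) R} {δ : Derivation R F F}
    {x t : F} (hC : Corr α A β M δ x t) (N : ℕ) (hN : 0 < N)
    (h : ∃ a : ℤ, IsCoprime a (N : ℤ) ∧ ∃ P₀ : ℕ, ∀ p : ℕ, p.Prime → P₀ < p →
      (N : ℤ) ∣ a * p + 1 → ∀ (𝔪 : Ideal R) [𝔪.IsMaximal], (p : R) ∈ 𝔪 → ¬ PCurvZeroAt α A 𝔪) :
    (∃ a : ℤ, IsCoprime a (N : ℤ) ∧ ∃ g : R, g ≠ 0 ∧ ∃ P₀ : ℕ, ∀ p : ℕ, p.Prime → P₀ < p →
      (N : ℤ) ∣ a * p + 1 → ∀ (𝔪 : Ideal R) [𝔪.IsMaximal], (p : R) ∈ 𝔪 → g ∉ 𝔪 →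
        ¬ PCurvZeroAt β M 𝔪) ∧
    ¬ CondII β M := by
  obtain ⟨a, ha, P₀, h⟩ := h
  obtain ⟨g, hg, hcurv⟩ := tannaka hC
  have key : ∃ g : R, g ≠ 0 ∧ ∃ P₀ : ℕ, ∀ p : ℕ, p.Prime → P₀ < p →
      (N : ℤ) ∣ a * p + 1 → ∀ (𝔪 : Ideal R) [𝔪.IsMaximal], (p : R) ∈ 𝔪 → g ∉ 𝔪 →
        ¬ PCurvZeroAt β M 𝔪 :=
    ⟨g, hg, P₀, fun p hp hpP hap 𝔪 _ hpm hgm hc => h p hp hpP hap 𝔪 hpm (hcurv p hp 𝔪 hpm hgm hc)⟩
  exact ⟨⟨a, ha, key⟩, not_condII_of _ _ N hN a ha key⟩

end Pool.Agent.Q80.TC
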