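import Mathlib
import Pool.Agent.Q80.TC.Main

set_option autoImplicit false

open Polynomial Module
open Pool.Agent.W77.IM Pool.Agent.W432.PC Pool.Agent.W432.TC Pool.Agent.W432.HK
open Pool.Agent.Y227.SS Pool.Agent.TH571.GP Pool.Agent.Y227.TP

namespace Pool.Agent.Q80.TC

universe u v w

/-- The uniform density theorem for systems which correspond to a system with `n` finite poles. -/
theorem density_corr (n r : ℕ) :
    ∃ (ε : ℝ) (𝒟 : Finset (AddSubgroup (ExponentIndex n r → ℤ) × (ExponentIndex n r → ℚ))),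
      0 < ε ∧ (∀ C ∈ 𝒟, Adapted C) ∧
      ∀ (R : Type u) [CommRing R] [IsDomain R] [CharZero R] [Algebra.FiniteType ℤ R]
        [Algebra.IsAlgebraic ℤ R] (s m : ℕ) (β : Fin m → R) (M : Fin m → Matrix (Fin s) (Fin s) R)
        (α : Fin n → R) (A : Fin n → Matrix (Fin r) (Fin r) R),
        (∀ i j, i ≠ j → IsUnit (α i - α j)) →
        ∀ (F : Type v) [Field F] [Algebra R F] (δ : Derivation R F F) (x t : F),
          Corr α A β M δ x t →
        (∀ lam phi N, (∀ j, HasExponents (A j) (lam j)) → HasExponents (∑ j, A j) phi →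
          CommonDen lam phi N → BadClasses β M N ε 1 ∨
            (ConjGood α A lam phi N ∧ ∃ C ∈ 𝒟, InCoset C.1 C.2 (pt lam phi))) ∧
        (Few (BadPt β M) ε → ∃ lam phi, (∀ j, DiagExps (A j) (lam j)) ∧
          DiagExps (∑ j, A j) phi ∧ (∀ N, CommonDen lam phi N → ConjGood α A lam phi N) ∧
          ∃ C ∈ 𝒟, InCoset C.1 C.2 (pt lam phi)) := by
  obtain ⟨ε, 𝒟, hε, h𝒟, h⟩ := density_sys.{u} n r
  refine ⟨ε / 2, 𝒟, by positivity, fun C hC => adapted_of_nice (h𝒟 C hC), ?_⟩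
  intro R _ _ _ _ _ s m β M α A hα F _ _ δ x t hC
  obtain ⟨h1, h2⟩ := h R α A hα
  obtain ⟨g, hg, hcurv⟩ := tannaka hC
  obtain ⟨P₁, hP₁⟩ := Pool.Agent.Q80.PB.exists_bound hg
  refine ⟨fun lam phi N he he' hN => ?_, fun hfew => h2 ?_⟩
  · rcases h1 lam phi N he he' hN with hbad | hgood
    · left
      obtain ⟨S, P₀, hS, hP₀⟩ := hbad
      refine ⟨S, max P₀ P₁, ?_, fun p hp hpP hpS 𝔪 h𝔪 hpm _ hc => ?_⟩
      · have : (0 : ℝ) ≤ N.totient := Nat.cast_nonneg _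
        nlinarith
      · exact hP₀ p hp (lt_of_le_of_lt (le_max_left _ _) hpP) hpS 𝔪 hpm
          (fun h0 => h𝔪.ne_top ((Ideal.eq_top_iff_one 𝔪).mpr h0))
          (hcurv p hp 𝔪 hpm (hP₁ p hp (lt_of_le_of_lt (le_max_right _ _) hpP) 𝔪 hpm) hc)
    · exact Or.inr hgood
  · refine Pool.Agent.Q80.PB.few_of_few hε (P₁ := P₁) (fun p hp hpP hbad => ?_) hfew
    obtain ⟨𝔪, h𝔪, hpm, hno⟩ := hbad
    exact ⟨𝔪, h𝔪, hpm, fun hc => hno (hcurv p hp 𝔪 hpm (hP₁ p hp hpP 𝔪 hpm) hc)⟩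

end Pool.Agent.Q80.TC
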